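import Pool.Agent.Helper92.FR.GoalsB

/-!
# Few rows in a box, packet CUT: one cutting plane step
-/

namespace Pool.Agent.Helper61.FR

open Pool.Agent.Helper92.FR

theorem gam_sum {d : ℕ} (V : Fin (d + 1) → Fin d → ℝ) (g : Fin d → ℝ) :
    ∑ i, gamR V g i = 0 := by
  unfold gamR
  rw [Finset.sum_comm]
  refine Finset.sum_eq_zero fun l _ => ?_
  rw [← Finset.mul_sum, Finset.sum_sub_distrib, Finset.sum_const, Finset.card_univ,
    Fintype.card_fin]
  have h : (d : ℝ) + 1 ≠ 0 := by positivity
  unfold cent
  rw [nsmul_eq_mul]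
  push_cast
  field_simp
  ring

theorem cut : CutStmt := by
  intro d hd V V' g hcut
  obtain ⟨i0, n, hmin, hn, hV'⟩ := hcut
  obtain ⟨γ, hγ⟩ : ∃ γ, γ = gamR V g := ⟨_, rfl⟩
  obtain ⟨D, hDdef⟩ : ∃ D : ℝ, D = (d : ℝ) + 1 := ⟨_, rfl⟩
  have hd1 : (1 : ℝ) ≤ d := by exact_mod_cast hd
  have hD : 2 ≤ D := by linarith
  obtain ⟨μ, hμdef⟩ : ∃ μ : ℝ, μ = 1 / (2 * D ^ 2) := ⟨_, rfl⟩
  have hD2 : 4 ≤ D ^ 2 := by nlinarith
  have hμ0 : 0 < μ := by rw [hμdef]; positivity
  have hμ1 : μ ≤ 1 / 8 := by
    rw [hμdef]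
    apply one_div_le_one_div_of_le <;> linarith
  have hμD : 2 * μ * D ^ 2 = 1 := by
    rw [hμdef]
    field_simp
  have hsum : ∑ i, γ i = 0 := by rw [hγ]; exact gam_sum V g
  have hmin' : ∀ i, γ i0 ≤ γ i := by rw [hγ]; exact hmin
  have hg0 : γ i0 ≤ 0 := by
    by_contra h
    push Not at h
    have : 0 < ∑ i, γ i :=
      Finset.sum_pos (fun i _ => lt_of_lt_of_le h (hmin' i)) ⟨i0, Finset.mem_univ _⟩
    linarith
  obtain ⟨w, hw⟩ : ∃ w : Fin (d + 1) → ℝ, w = fun i => (γ i - γ i0) * (-γ i0)⁻¹ := ⟨_, rfl⟩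
  have hw0 : ∀ i, 0 ≤ w i := by
    intro i
    rw [hw]
    exact mul_nonneg (sub_nonneg.2 (hmin' i)) (inv_nonneg.2 (by linarith))
  obtain ⟨u, hu⟩ : ∃ u : Fin (d + 1) → ℝ, u = uu V g i0 := ⟨_, rfl⟩
  have hu' : ∀ i, u i = 1 - μ + μ * w i := by
    intro i
    rw [hu, hw, hγ, hμdef, hDdef]
    rfl
  have hu1 : ∀ i, 1 - μ ≤ u i := by
    intro i
    rw [hu' i]
    have := mul_nonneg hμ0.le (hw0 i)
    linarith
  have hupos : ∀ i, 0 < u i := fun i => by have := hu1 i; linarith
  have hn' : ∀ i, i ≠ i0 → 1 ≤ n i * u i ∧ n i ≤ 1 / u i + 1 / (8 * D ^ 3) := by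
    intro i hi
    rw [hu, hDdef]
    exact hn i hi
  have hnpos : ∀ i, i ≠ i0 → 0 < n i := by
    intro i hi
    have h1 := (hn' i hi).1
    by_contra h
    push Not at h
    have := mul_nonpos_of_nonpos_of_nonneg h (hupos i).le
    linarith
  have hw00 : w i0 = 0 := by rw [hw]; simp
  have hV0 : ∀ l, V' i0 l = V i0 l := by
    intro l
    rw [hV' i0 l]
    ring
  refine ⟨?_, ?_, ?_⟩
  · -- part 1
    rintro x ⟨b, hb0, hb1, hbx⟩ hneg
    have e1 : ∑ l, g l * (x l - cent V l) = ∑ i, b i * γ i := by
      rw [hγ]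
      simp only [gamR, Finset.mul_sum]
      rw [Finset.sum_comm]
      refine Finset.sum_congr rfl fun l _ => ?_
      rw [hbx l]
      have : ∑ i, b i * (g l * (V i l - cent V l)) =
          g l * (∑ i, b i * V i l) - g l * cent V l * ∑ i, b i := by
        rw [Finset.mul_sum, Finset.mul_sum, ← Finset.sum_sub_distrib]
        refine Finset.sum_congr rfl fun i _ => ?_
        ring
      rw [this, hb1]
      ring
    have hlt : ∑ i, b i * γ i < 0 := by rw [← e1]; exact hneg
    have hγ0 : γ i0 < 0 := by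
      by_contra h
      push Not at h
      have : 0 ≤ ∑ i, b i * γ i :=
        Finset.sum_nonneg fun i _ => mul_nonneg (hb0 i) (h.trans (hmin' i))
      linarith
    have hbw : ∑ i, b i * w i ≤ 1 := by
      have h1 : ∑ i, b i * w i = (∑ i, b i * γ i) * (-γ i0)⁻¹ + 1 := by
        have h2 : ∀ i, b i * w i = (b i * γ i) * (-γ i0)⁻¹ + b i * (-γ i0 * (-γ i0)⁻¹) := by
          intro i
          rw [hw]
          ring
        rw [Finset.sum_congr rfl fun i _ => h2 i, Finset.sum_add_distrib, ← Finset.sum_mul,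
          ← Finset.sum_mul, hb1, mul_inv_cancel₀ (by linarith : -γ i0 ≠ 0), mul_one]
      have h3 : (∑ i, b i * γ i) * (-γ i0)⁻¹ ≤ 0 :=
        mul_nonpos_of_nonpos_of_nonneg hlt.le (inv_nonneg.2 (by linarith))
      linarith
    have hbE : b i0 + ∑ i ∈ Finset.univ.erase i0, b i = 1 := by
      rw [Finset.add_sum_erase _ _ (Finset.mem_univ i0), hb1]
    have hbwE : b i0 * w i0 + ∑ i ∈ Finset.univ.erase i0, b i * w i = ∑ i, b i * w i :=
      Finset.add_sum_erase _ (fun i => b i * w i) (Finset.mem_univ i0)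
    have hbu : ∑ i ∈ Finset.univ.erase i0, b i * u i ≤ 1 := by
      have h1 : ∑ i ∈ Finset.univ.erase i0, b i * u i =
          (1 - μ) * ∑ i ∈ Finset.univ.erase i0, b i +
            μ * ∑ i ∈ Finset.univ.erase i0, b i * w i := by
        rw [Finset.mul_sum, Finset.mul_sum, ← Finset.sum_add_distrib]
        refine Finset.sum_congr rfl fun i _ => ?_
        rw [hu' i]
        ring
      have h2 : ∑ i ∈ Finset.univ.erase i0, b i ≤ 1 := by have := hb0 i0; linarith
      have h3 : ∑ i ∈ Finset.univ.erase i0, b i * w i ≤ 1 := by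
        rw [hw00, mul_zero, zero_add] at hbwE
        linarith
      rw [h1]
      have h4 : (1 - μ) * ∑ i ∈ Finset.univ.erase i0, b i ≤ (1 - μ) * 1 :=
        mul_le_mul_of_nonneg_left h2 (by linarith)
      have h5 : μ * ∑ i ∈ Finset.univ.erase i0, b i * w i ≤ μ * 1 :=
        mul_le_mul_of_nonneg_left h3 hμ0.le
      linarith
    have hbn : ∀ i, i ≠ i0 → b i / n i ≤ b i * u i := by
      intro i hi
      rw [div_le_iff₀ (hnpos i hi), mul_assoc]
      have := mul_le_mul_of_nonneg_left (hn' i hi).1 (hb0 i)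
      linarith [mul_comm (n i) (u i), mul_comm (u i) (n i)]
    have hbs : ∑ i ∈ Finset.univ.erase i0, b i / n i ≤ 1 :=
      (Finset.sum_le_sum fun i hi => hbn i (Finset.ne_of_mem_erase hi)).trans hbu
    refine ⟨fun i => if i = i0 then 1 - ∑ j ∈ Finset.univ.erase i0, b j / n j else b i / n i,
      ?_, ?_, ?_⟩
    · intro i
      by_cases hi : i = i0
      · simp only [if_pos hi]
        linarith
      · simp only [if_neg hi]
        exact div_nonneg (hb0 i) (hnpos i hi).le
    · rw [← Finset.add_sum_erase _ _ (Finset.mem_univ i0)]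
      have h1 : ∑ i ∈ Finset.univ.erase i0,
          (if i = i0 then 1 - ∑ j ∈ Finset.univ.erase i0, b j / n j else b i / n i) =
          ∑ i ∈ Finset.univ.erase i0, b i / n i := by
        refine Finset.sum_congr rfl fun i hi => ?_
        rw [if_neg (Finset.ne_of_mem_erase hi)]
      rw [h1, if_pos rfl]
      ring
    · intro l
      rw [← Finset.add_sum_erase _ _ (Finset.mem_univ i0)]
      beta_reduce
      rw [if_pos rfl, hV0 l]
      have h1 : ∑ i ∈ Finset.univ.erase i0,
          (if i = i0 then 1 - ∑ j ∈ Finset.univ.erase i0, b j / n j else b i / n i) * V' i l =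
          ∑ i ∈ Finset.univ.erase i0, (b i / n i * V i0 l + (b i * V i l - b i * V i0 l)) := by
        refine Finset.sum_congr rfl fun i hi => ?_
        have hi' := Finset.ne_of_mem_erase hi
        have hne := (hnpos i hi').ne'
        rw [if_neg hi', hV' i l]
        field_simp
      rw [h1, Finset.sum_add_distrib, Finset.sum_sub_distrib, ← Finset.sum_mul,
        ← Finset.sum_mul]
      have h2 : x l = b i0 * V i0 l + ∑ i ∈ Finset.univ.erase i0, b i * V i l := by
        rw [hbx l]
        exact (Finset.add_sum_erase _ (fun i => b i * V i l) (Finset.mem_univ i0)).symm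
      rw [h2]
      have h3 : b i0 = 1 - ∑ i ∈ Finset.univ.erase i0, b i := by linarith
      rw [h3]
      ring
  · -- part 2
    rintro ⟨i1, hi1⟩
    have hγ0 : γ i0 < 0 := lt_of_le_of_lt (hmin' i1) (by rw [hγ]; exact hi1)
    -- the determinant
    have hdet : (hom V').det = (∏ i ∈ Finset.univ.erase i0, n i) * (hom V).det := by
      set n' : Fin (d + 1) → ℝ := fun i => if i = i0 then 1 else n i with hn'def
      have h1 : (hom V').det = (Matrix.of fun i j => n' i * hom V i j).det := by
        refine Matrix.det_eq_of_forall_row_eq_smul_add_const (fun i => 1 - n' i) i0 ?_ ?_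
        · simp [hn'def]
        · intro i j
          have hk : ∀ j, hom V' i j = n' i * hom V i j + (1 - n' i) * hom V i0 j := by
            intro j
            by_cases hi : i = i0
            · subst hi
              simp only [hn'def, if_pos]
              refine Fin.cases ?_ (fun l => ?_) j
              · simp [hom]
              · simp only [hom, Fin.cons_succ]
                rw [hV0 l]
                ring
            · simp only [hn'def, if_neg hi]
              refine Fin.cases ?_ (fun l => ?_) j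
              · simp [hom]
              · simp only [hom, Fin.cons_succ]
                rw [hV' i l]
                ring
          rw [hk j]
          simp only [Matrix.of_apply, hn'def, if_pos]
          ring
      rw [h1, Matrix.det_mul_column]
      congr 1
      rw [← Finset.mul_prod_erase _ _ (Finset.mem_univ i0)]
      have h2 : ∏ i ∈ Finset.univ.erase i0, n' i = ∏ i ∈ Finset.univ.erase i0, n i := by
        refine Finset.prod_congr rfl fun i hi => ?_
        simp only [hn'def, if_neg (Finset.ne_of_mem_erase hi)]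
      rw [h2]
      simp [hn'def]
    -- the sums
    have hws : ∑ i, w i = D := by
      rw [hw, ← Finset.sum_mul, Finset.sum_sub_distrib, hsum, Finset.sum_const, Finset.card_univ,
        Fintype.card_fin, nsmul_eq_mul, hDdef]
      push_cast
      have h1 : (0 - ((d : ℝ) + 1) * γ i0) * (-γ i0)⁻¹ =
          ((d : ℝ) + 1) * (-γ i0 * (-γ i0)⁻¹) := by ring
      rw [h1, mul_inv_cancel₀ (by linarith : -γ i0 ≠ 0), mul_one]
    have hwE : ∑ i ∈ Finset.univ.erase i0, w i = D := by
      have := Finset.add_sum_erase Finset.univ w (Finset.mem_univ i0)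
      rw [hw00, zero_add] at this
      rw [this, hws]
    have hw2 : ∑ i ∈ Finset.univ.erase i0, w i ^ 2 ≤ D ^ 2 := by
      have h1 : ∀ i ∈ Finset.univ.erase i0, w i ^ 2 ≤ w i * D := by
        intro i hi
        have h2 : w i ≤ D := by
          rw [← hwE]
          exact Finset.single_le_sum (fun j _ => hw0 j) hi
        rw [sq]
        exact mul_le_mul_of_nonneg_left h2 (hw0 i)
      refine (Finset.sum_le_sum h1).trans ?_
      rw [← Finset.sum_mul, hwE, sq]
    have hcard : ((Finset.univ.erase i0).card : ℝ) = D - 1 := by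
      rw [Finset.card_erase_of_mem (Finset.mem_univ i0), Finset.card_univ, Fintype.card_fin, hDdef]
      simp
    have hfac : ∀ i ∈ Finset.univ.erase i0, n i ≤ Real.exp
        (-(μ * (w i - 1)) + (μ * (w i - 1)) ^ 2 / (1 - μ) + u i / (8 * D ^ 3)) := by
      intro i hi
      have hi' := Finset.ne_of_mem_erase hi
      have hui := hupos i
      have hQ : 0 < 8 * D ^ 3 := by positivity
      have h1 : n i ≤ 1 / u i * (1 + u i / (8 * D ^ 3)) := by
        have := (hn' i hi').2
        have h2 : 1 / u i * (1 + u i / (8 * D ^ 3)) = 1 / u i + 1 / (8 * D ^ 3) := by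
          field_simp
        rw [h2]
        exact this
      have h2 : 1 / u i ≤ Real.exp (1 / u i - 1) := by
        have := Real.add_one_le_exp (1 / u i - 1)
        linarith
      have h3 : 1 + u i / (8 * D ^ 3) ≤ Real.exp (u i / (8 * D ^ 3)) := by
        have := Real.add_one_le_exp (u i / (8 * D ^ 3))
        linarith
      have h4 : n i ≤ Real.exp (1 / u i - 1) * Real.exp (u i / (8 * D ^ 3)) :=
        h1.trans (mul_le_mul h2 h3 (by positivity) (Real.exp_pos _).le)
      rw [← Real.exp_add] at h4
      refine h4.trans (Real.exp_le_exp.2 ?_)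
      have h5 : 1 / u i - 1 = -(μ * (w i - 1)) + (μ * (w i - 1)) ^ 2 / u i := by
        have h6 : μ * (w i - 1) = u i - 1 := by rw [hu' i]; ring
        rw [h6]
        field_simp
        ring
      have h6 : (μ * (w i - 1)) ^ 2 / u i ≤ (μ * (w i - 1)) ^ 2 / (1 - μ) :=
        div_le_div_of_nonneg_left (sq_nonneg _) (by linarith) (hu1 i)
      rw [h5]
      linarith
    have hprod : ∏ i ∈ Finset.univ.erase i0, n i ≤
        Real.exp (-(1 / (8 * D ^ 2))) := by
      refine (Finset.prod_le_prod (fun i hi => (hnpos i (Finset.ne_of_mem_erase hi)).le)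
        hfac).trans ?_
      rw [← Real.exp_sum]
      refine Real.exp_le_exp.2 ?_
      rw [Finset.sum_add_distrib, Finset.sum_add_distrib, ← Finset.sum_div, ← Finset.sum_div]
      have s1 : ∑ i ∈ Finset.univ.erase i0, -(μ * (w i - 1)) = -μ := by
        have : ∀ i, -(μ * (w i - 1)) = -μ * w i + μ := fun i => by ring
        rw [Finset.sum_congr rfl fun i _ => this i, Finset.sum_add_distrib, ← Finset.mul_sum, hwE,
          Finset.sum_const, nsmul_eq_mul, hcard]
        ring
      have s2 : ∑ i ∈ Finset.univ.erase i0, (μ * (w i - 1)) ^ 2 ≤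
          μ ^ 2 * (D ^ 2 - D - 1) := by
        have : ∀ i, (μ * (w i - 1)) ^ 2 = μ ^ 2 * w i ^ 2 + (-2 * μ ^ 2 * w i + μ ^ 2) :=
          fun i => by ring
        rw [Finset.sum_congr rfl fun i _ => this i, Finset.sum_add_distrib,
          Finset.sum_add_distrib, ← Finset.mul_sum, ← Finset.mul_sum, hwE,
          Finset.sum_const, nsmul_eq_mul, hcard]
        have := mul_le_mul_of_nonneg_left hw2 (sq_nonneg μ)
        nlinarith
      have s3 : ∑ i ∈ Finset.univ.erase i0, u i ≤ D := by
        rw [Finset.sum_congr rfl fun i _ => hu' i, Finset.sum_add_distrib, ← Finset.mul_sum, hwE,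
          Finset.sum_const, nsmul_eq_mul, hcard]
        nlinarith
      rw [s1]
      have s4 : (∑ i ∈ Finset.univ.erase i0, (μ * (w i - 1)) ^ 2) / (1 - μ) ≤ μ / 2 := by
        rw [div_le_iff₀ (by linarith)]
        refine s2.trans ?_
        have h7 : μ ^ 2 * (D ^ 2 - D - 1) = μ * (1 / 2) - μ ^ 2 * (D + 1) := by
          have : μ ^ 2 * D ^ 2 = μ * (1 / 2) := by nlinarith
          nlinarith
        rw [h7]
        nlinarith
      have s5 : (∑ i ∈ Finset.univ.erase i0, u i) / (8 * D ^ 3) ≤ 1 / (8 * D ^ 2) := by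
        rw [div_le_div_iff₀ (by positivity) (by positivity)]
        have : (∑ i ∈ Finset.univ.erase i0, u i) * (8 * D ^ 2) ≤ D * (8 * D ^ 2) :=
          mul_le_mul_of_nonneg_right s3 (by positivity)
        nlinarith
      have s6 : μ / 2 = 1 / (8 * D ^ 2) + 1 / (8 * D ^ 2) := by
        rw [hμdef]
        field_simp
        ring
      linarith
    have hprod0 : 0 ≤ ∏ i ∈ Finset.univ.erase i0, n i :=
      Finset.prod_nonneg fun i hi => (hnpos i (Finset.ne_of_mem_erase hi)).le
    rw [hdet, abs_mul, abs_of_nonneg hprod0, ← hDdef]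
    exact mul_le_mul_of_nonneg_right hprod (abs_nonneg _)
  · -- part 3
    intro R hR i l
    have hR0 : 0 ≤ R := (abs_nonneg _).trans (hR i l)
    by_cases hi : i = i0
    · rw [hi, hV0 l]
      have := hR i0 l
      linarith
    · have h1 : n i ≤ 2 := by
        refine (hn' i hi).2.trans ?_
        have h2 : 1 / u i ≤ 8 / 7 := by
          rw [div_le_div_iff₀ (hupos i) (by norm_num)]
          have := hu1 i
          linarith
        have h3 : 1 / (8 * D ^ 3) ≤ 1 / 64 := by
          apply one_div_le_one_div_of_le (by norm_num)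
          nlinarith
        linarith
      have h0 := hnpos i hi
      rw [hV' i l]
      have h2 : |V i l - V i0 l| ≤ 2 * R := by
        refine (abs_sub _ _).trans ?_
        have := hR i l
        have := hR i0 l
        linarith
      calc |V i0 l + n i * (V i l - V i0 l)| ≤ |V i0 l| + |n i * (V i l - V i0 l)| := abs_add_le _ _
        _ = |V i0 l| + n i * |V i l - V i0 l| := by rw [abs_mul, abs_of_pos h0]
        _ ≤ R + 2 * (2 * R) :=
            add_le_add (hR i0 l) (mul_le_mul h1 h2 (abs_nonneg _) (by norm_num))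
        _ = 5 * R := by ring

end Pool.Agent.Helper61.FR
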