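import Pool.Agent.Helper92.FR.GoalsB

/-!
# Few rows in a box, packet MIN: the minimiser of `FF`
-/

namespace Pool.Agent.Helper61.FR

open Pool.Agent.Helper92.FR Filter Topology

theorem min (hG : GroStmt) : MinStmt := by
  intro N d C S e σ z hS hσ hz he
  obtain ⟨g1, -, g3, g4⟩ := hG N d C S e
  rcases Nat.eq_zero_or_pos d with rfl | hd
  · refine ⟨0, fun lam => ?_, fun i => i.elim0⟩
    rw [Subsingleton.elim lam 0]
  have hσ2 : σ ≤ 1 / 2 := by
    obtain ⟨h1, h2⟩ := hz (Sum.inr ⟨0, hd⟩)
    linarith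
  have hlog : 0 ≤ Real.log (2 / σ) := by
    apply Real.log_nonneg
    rw [le_div_iff₀ hσ]
    linarith
  set B : ℝ := 2 * (N + d) / σ * Real.log (2 / σ) with hB
  have hB0 : 0 ≤ B := by positivity
  have hcont : Continuous (FF C S e) := by
    rw [continuous_iff_continuousAt]
    intro lam
    rw [ContinuousAt, tendsto_iff_norm_sub_tendsto_zero]
    refine squeeze_zero (g := fun lam' : Fin d → ℝ =>
        ∑ i, |lam' i - lam i| * ((∑ j, |col C S j i|) + |e i|)) (fun _ => norm_nonneg _)
      (fun lam' => g3 lam' lam) ?_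
    have h0 : ∑ i, |lam i - lam i| * ((∑ j, |col C S j i|) + |e i|) = 0 :=
      Finset.sum_eq_zero fun i _ => by rw [sub_self, abs_zero, zero_mul]
    have h : Tendsto (fun lam' : Fin d → ℝ =>
        ∑ i, |lam' i - lam i| * ((∑ j, |col C S j i|) + |e i|)) (𝓝 lam)
        (𝓝 (∑ i, |lam i - lam i| * ((∑ j, |col C S j i|) + |e i|))) :=
      Continuous.tendsto (by fun_prop) lam
    rw [h0] at h
    exact h
  have hbd : ∀ lam : Fin d → ℝ, FF C S e lam ≤ 0 → ∀ i, |lam i| ≤ B := by
    intro lam hlam i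
    have h1 := g1 σ z hσ hz he lam
    have h2 : σ / 2 * ∑ j, |aa C S lam j| ≤ (N + d) * Real.log (2 / σ) := by linarith
    have h3 : ∑ j, |aa C S lam j| ≤ B := by
      rw [hB, div_mul_eq_mul_div, le_div_iff₀ hσ]
      linarith
    have h4 : |aa C S lam (Sum.inr i)| ≤ ∑ j, |aa C S lam j| :=
      Finset.single_le_sum (f := fun j => |aa C S lam j|) (fun _ _ => abs_nonneg _)
        (Finset.mem_univ (Sum.inr i))
    have h5 : aa C S lam (Sum.inr i) = lam i * (- S i) := by
      unfold aa col
      rw [Finset.sum_eq_single i]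
      · simp
      · intro i' _ hi'
        simp [hi']
      · intro h
        exact absurd (Finset.mem_univ _) h
    rw [h5, abs_mul, abs_neg] at h4
    have h6 : |lam i| * 1 ≤ |lam i| * |S i| :=
      mul_le_mul_of_nonneg_left ((hS i).trans (le_abs_self _)) (abs_nonneg _)
    linarith
  have hK : IsCompact (Set.pi Set.univ fun _ : Fin d => Set.Icc (-B) B) :=
    isCompact_univ_pi fun _ => isCompact_Icc
  have h0K : (0 : Fin d → ℝ) ∈ (Set.pi Set.univ fun _ : Fin d => Set.Icc (-B) B) := by
    intro i _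
    simp only [Pi.zero_apply, Set.mem_Icc]
    constructor <;> linarith
  obtain ⟨y, hyK, hy⟩ := hK.exists_isMinOn ⟨0, h0K⟩ hcont.continuousOn
  refine ⟨y, ?_, ?_⟩
  · intro lam
    by_cases hl : lam ∈ (Set.pi Set.univ fun _ : Fin d => Set.Icc (-B) B)
    · exact hy hl
    · have h1 : FF C S e y ≤ FF C S e 0 := hy h0K
      rw [g4] at h1
      by_contra hcon
      push Not at hcon
      apply hl
      intro i _
      exact abs_le.1 (hbd lam (hcon.le.trans h1) i)
  · intro i
    exact abs_le.2 (hyK i (Set.mem_univ i))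

end Pool.Agent.Helper61.FR
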